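import Pool.Agent.Helper27.UC.Goals7

/-!
# UC-HDS (packet 14809)
-/

set_option autoImplicit false

namespace Pool.Agent.Helper55.UC.HDS

open Pool.Agent.Helper27.UC

theorem t : S_HDS := by
  rintro K n m g h l P ⟨hK, hn, hnm, hcard, hg, hP, hPn, hPs⟩ hgl hl
  have hcnt : ∀ v, g.count v = 4 * h.count v + l.count v := by
    intro v
    rw [hgl, Multiset.count_add, Multiset.count_nsmul]
  have hcg : Multiset.card g = 4 * Multiset.card h + Multiset.card l := by
    rw [hgl, Multiset.card_add, Multiset.card_nsmul]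
  have hK2 : 1 ≤ K ^ 2 := Nat.one_le_pow _ _ hK
  have hK3 : K ^ 2 ≤ K ^ 3 := Nat.pow_le_pow_right hK (by norm_num)
  have hhg : ∀ v ∈ h, v ∈ g := by
    intro v hv
    rw [← Multiset.count_pos] at hv ⊢
    have := hcnt v
    omega
  have hlg : ∀ v ∈ l, v ∈ g := by
    intro v hv
    rw [← Multiset.count_pos] at hv ⊢
    have := hcnt v
    omega
  refine ⟨hK, hn, hnm, by omega, ?_, ?_, hP, ?_, hPn, hPs⟩
  · intro v hv
    obtain ⟨h1, h2, h3⟩ := hg v (hhg v hv)
    refine ⟨h1, h2, ?_⟩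
    have h4 := (hl v (hhg v hv)).2
    have h5 := hcnt v
    generalize K ^ 2 = a at *
    generalize K ^ 3 = b at *
    omega
  · intro v hv
    obtain ⟨h1, h2, h3⟩ := hg v (hlg v hv)
    exact ⟨h1, h2, (hl v (hlg v hv)).1⟩
  · have e1 : Multiset.card l ≤ g.toFinset.card * (30 * K ^ 2 + 7) := by
      rw [← Multiset.sum_count_eq_card (s := g.toFinset) (m := l)
        (fun a ha => Multiset.mem_toFinset.2 (hlg a ha))]
      refine (Finset.sum_le_card_nsmul _ _ _ (fun v hv => ?_)).trans_eq (by rw [smul_eq_mul])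
      exact (hl v (Multiset.mem_toFinset.1 hv)).2
    have e2 : g.toFinset.card * (10 ^ 4 * K ^ 3) ≤ Multiset.card g := by
      rw [← Multiset.toFinset_sum_count_eq g]
      refine le_trans (by rw [smul_eq_mul]) (Finset.card_nsmul_le_sum _ _ _ (fun v hv => ?_))
      exact (hg v (Multiset.mem_toFinset.1 hv)).2.2
    have e3 : 30 * K ^ 2 + 7 ≤ 37 * K ^ 2 := by omega
    calc 1000 * K * Multiset.card l ≤ 1000 * K * (g.toFinset.card * (37 * K ^ 2)) :=
          Nat.mul_le_mul_left _ (e1.trans (Nat.mul_le_mul_left _ e3))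
      _ = 37000 * (g.toFinset.card * K ^ 3) := by ring
      _ ≤ 40000 * (g.toFinset.card * K ^ 3) := Nat.mul_le_mul_right _ (by norm_num)
      _ = 4 * (g.toFinset.card * (10 ^ 4 * K ^ 3)) := by ring
      _ ≤ 4 * Multiset.card g := Nat.mul_le_mul_left _ e2
      _ ≤ n := by omega

end Pool.Agent.Helper55.UC.HDS
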